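import Pool.Agent.H978R2.Hex.ValG

set_option autoImplicit false

/-! Walks as functions and as reversed lists. -/

namespace H978R3.Wedge

open H978R2.Hex

/-- self-avoiding walks `f 0 = (0,0), f 1 = (1,0), f 2, …, f (m+1)` on the honeycomb lattice such
that the vertices `f 1, …, f m` are in `D` -/
def WalkSet (D : V → Prop) (m : ℕ) : Set (Fin (m + 2) → V) :=
  {f | f 0 = (0, 0) ∧ f 1 = (1, 0) ∧ Function.Injective f ∧
    (∀ i : Fin (m + 1), Adj (f i.castSucc) (f i.succ)) ∧
    ∀ i : Fin (m + 1), i ≠ 0 → D (f i.castSucc)}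

/-- number of left turns minus number of right turns -/
def turnSum {m : ℕ} (f : Fin (m + 2) → V) : ℤ :=
  ∑ i : Fin m, turn (f i.castSucc.castSucc) (f i.castSucc.succ) (f i.succ.succ)

/-- reversed list of the values -/
def rl {n : ℕ} (f : Fin n → V) : List V := (List.ofFn f).reverse

theorem rl_succ {n : ℕ} (f : Fin (n + 1) → V) :
    rl f = f (Fin.last n) :: rl (fun i : Fin n => f i.castSucc) := by
  unfold rl
  rw [List.ofFn_succ', List.concat_eq_append, List.reverse_append]
  rfl

theorem rl_zero (f : Fin 0 → V) : rl f = [] := by simp [rl]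

theorem rl_length {n : ℕ} (f : Fin n → V) : (rl f).length = n := by simp [rl]

theorem mem_rl {n : ℕ} (f : Fin n → V) (v : V) : v ∈ rl f ↔ ∃ i, f i = v := by
  simp [rl, List.mem_ofFn]

theorem walk_init {D : V → Prop} {m : ℕ} {f : Fin (m + 3) → V} (h : f ∈ WalkSet D (m + 1)) :
    (fun i : Fin (m + 2) => f i.castSucc) ∈ WalkSet D m := by
  obtain ⟨h0, h1, h2, h3, h4⟩ := h
  refine ⟨h0, h1, ?_, ?_, ?_⟩
  · intro i j hij
    exact Fin.castSucc_injective _ (h2 hij)
  · intro i
    exact h3 i.castSucc
  · intro i hi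
    refine h4 i.castSucc ?_
    intro h
    apply hi
    ext
    simpa using congrArg Fin.val h

theorem val_rl {D : V → Prop} : ∀ (m : ℕ) (f : Fin (m + 2) → V), f ∈ WalkSet D m → Val D (rl f)
  | 0, f, h => by
    rw [rl_succ, rl_succ, rl_zero]
    exact ⟨h.2.1, h.1⟩
  | m + 1, f, h => by
    have hg := walk_init h
    have ih := val_rl m _ hg
    obtain ⟨h0, h1, h2, h3, h4⟩ := h
    rw [rl_succ]
    rw [rl_succ, rl_succ] at ih ⊢
    refine ⟨?_, ?_, ?_, ?_, ih⟩
    · exact h3 (Fin.last (m + 1))
    · intro h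
      have := congrArg Fin.val (h2 h)
      simp at this
    · exact h4 (Fin.last (m + 1)) (by intro h; have := congrArg Fin.val h; simp at this)
    · intro h
      rw [← rl_succ (fun i : Fin (m + 1) => f i.castSucc.castSucc)] at h
      rw [mem_rl] at h
      obtain ⟨i, hi⟩ := h
      have := congrArg Fin.val (h2 hi)
      simp at this
      omega

theorem rl_mem {D : V → Prop} [DecidablePred D] {m : ℕ} {f : Fin (m + 2) → V}
    (h : f ∈ WalkSet D m) : rl f ∈ P D m := by
  rw [mem_P]
  exact ⟨val_rl m f h, rl_length f⟩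

theorem rl_head {n : ℕ} (f : Fin (n + 1) → V) : (rl f).headD (0, 0) = f (Fin.last n) := by
  rw [rl_succ]; rfl

theorem rl_inj {n : ℕ} {f g : Fin n → V} (h : rl f = rl g) : f = g := by
  unfold rl at h
  exact List.ofFn_injective (List.reverse_injective h)

theorem W_rl : ∀ (m : ℕ) (f : Fin (m + 2) → V), W (rl f) = turnSum f
  | 0, f => by
    rw [rl_succ, rl_succ, rl_zero]
    simp [W, turnSum]
  | m + 1, f => by
    have ih := W_rl m (fun i => f i.castSucc)
    rw [rl_succ]
    rw [rl_succ, rl_succ] at ih ⊢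
    rw [W, ih]
    unfold turnSum
    rw [Fin.sum_univ_castSucc]
    rw [add_comm]
    rfl

/-- every valid list whose head is new comes from a walk -/
theorem exists_rl {D : V → Prop} [DecidablePred D] {m : ℕ} {l : List V} (hl : l ∈ P D m)
    (hh : l.headD (0, 0) ∉ l.tail) : ∃ f ∈ WalkSet D m, rl f = l := by
  obtain ⟨z, t, rfl, hg, hlen⟩ := good_of_mem hl
  simp only [List.headD_cons, List.tail_cons] at hh
  have hnod : (z :: t).Nodup := List.nodup_cons.2 ⟨hh, hg.nodup⟩
  have hlen2 : (z :: t).reverse.length = m + 2 := by simp [hlen]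
  have hnod' : (z :: t).reverse.Nodup := List.nodup_reverse.2 hnod
  have hch : (z :: t).reverse.IsChain Adj := by
    have := hg.chain
    rw [List.isChain_reverse]
    exact this
  obtain ⟨s, hs⟩ := hg.suff
  have hr : (z :: t).reverse = (0, 0) :: (1, 0) :: s.reverse := by
    rw [← hs]; simp
  refine ⟨fun i => (z :: t).reverse[i.1]'(by omega), ⟨?_, ?_, ?_, ?_, ?_⟩, ?_⟩
  · simp [hr]
  · simp [hr]
  · intro i j hij
    have := (List.Nodup.getElem_inj_iff hnod').1 hij
    exact Fin.ext this
  · intro i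
    exact List.isChain_iff_getElem.1 hch i.1 (by omega)
  · intro i hi
    apply hg.om
    have hi1 : 1 ≤ i.1 := by
      rcases Nat.eq_zero_or_pos i.1 with h | h
      · exact absurd (Fin.ext h) hi
      · exact h
    have hi2 := i.2
    simp only [Fin.val_castSucc]
    rw [List.getElem_reverse]
    have e : ((z :: t).length - 1 - i.1) = (t.length - 1 - i.1) + 1 := by
      simp only [List.length_cons]; omega
    simp only [e, List.getElem_cons_succ]
    have h5 : t.length - 1 - i.1 < t.dropLast.length := by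
      rw [List.length_dropLast]; omega
    have h6 := List.getElem_mem h5
    rw [List.getElem_dropLast] at h6
    exact h6
  · unfold rl
    have : List.ofFn (fun i : Fin (m + 2) => (z :: t).reverse[i.1]'(by omega)) =
        (z :: t).reverse := by
      apply List.ext_getElem
      · rw [List.length_ofFn, hlen2]
      · intro i h1 h2
        rw [List.getElem_ofFn]
    rw [this, List.reverse_reverse]

/-- counting walks by lists -/
theorem ncard_eq {D : V → Prop} [DecidablePred D] (m : ℕ) (Q : V → Prop) [DecidablePred Q]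
    (hQ : ∀ l ∈ P D m, Q (l.headD (0, 0)) → l.headD (0, 0) ∉ l.tail) :
    Set.ncard {f : Fin (m + 2) → V | f ∈ WalkSet D m ∧ Q (f (Fin.last (m + 1)))} =
      ((P D m).filter (fun l => Q (l.headD (0, 0)))).card := by
  rw [← Set.ncard_coe_finset]
  apply Set.ncard_congr (fun f _ => rl f)
  · intro f hf
    rw [Finset.mem_coe, Finset.mem_filter]
    exact ⟨rl_mem hf.1, by rw [rl_head]; exact hf.2⟩
  · intro f g _ _ h
    exact rl_inj h
  · intro l hl
    rw [Finset.mem_coe, Finset.mem_filter] at hl
    obtain ⟨f, h1, h2⟩ := exists_rl hl.1 (hQ l hl.1 hl.2)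
    refine ⟨f, ⟨h1, ?_⟩, h2⟩
    have h3 := rl_head f
    rw [h2] at h3
    rw [← h3]
    exact hl.2

theorem walk_finite (D : V → Prop) [DecidablePred D] (m : ℕ) : (WalkSet D m).Finite := by
  apply Set.Finite.of_finite_image (f := rl) ((Finset.finite_toSet (P D m)).subset ?_)
  · intro f _ g _ h
    exact rl_inj h
  · rintro _ ⟨f, hf, rfl⟩
    exact rl_mem hf

end H978R3.Wedge
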