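import Pool.Agent.H978R2.Hex.Growth
import Pool.Agent.H978R3.Wedge.Walks

set_option autoImplicit false
set_option linter.unusedSimpArgs false

/-! Truncated wedges and the index of the landing walks. -/

namespace H978R3.Wedge

open H978R2.Hex Complex

/-- the lattice wedge with opening `60 j` degrees (`j = 4, 5, 6`) -/
def Wd (j : ℕ) (v : V) : Prop :=
  (v.2 = 0 → 1 ≤ v.1) ∧ (1 ≤ v.2 → (j = 5 → 2 ≤ v.1 + v.2) ∧ (j = 4 → 1 ≤ v.1 - v.2))

/-- the hexagon of radius `N` -/
def Hx (N : ℤ) (v : V) : Prop :=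
  -N ≤ v.2 ∧ v.2 ≤ N ∧ -2 * N ≤ v.1 + v.2 ∧ v.1 + v.2 ≤ 2 * N + 1 ∧
    -2 * N + 1 ≤ v.1 - v.2 ∧ v.1 - v.2 ≤ 2 * N

instance (j : ℕ) : DecidablePred (Wd j) := fun v => by unfold Wd; infer_instance
instance (N : ℤ) : DecidablePred (Hx N) := fun v => by unfold Hx; infer_instance

/-- parameters of the truncated wedges -/
def wPar (j : ℕ) (N : ℤ) : Par :=
  { hexPar N with
    a4 := if j = 5 then 2 else -2 * N
    c3 := if j = 4 then 1 else -2 * N + 1 }

theorem ok_w (j : ℕ) (N : ℤ) (hN : 1 ≤ N) : Ok (wPar j N) := by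
  constructor <;> simp only [wPar, hexPar] <;> (try split_ifs) <;> omega

theorem om_iff (j : ℕ) (N : ℤ) (hN : 1 ≤ N) (v : V) :
    Om (wPar j N) v ↔ Wd j v ∧ Hx N v := by
  unfold Om wPar hexPar Wd Hx
  have hdj : ¬ ((5 : ℕ) = 4) := by norm_num
  have hdj' : ¬ ((4 : ℕ) = 5) := by norm_num
  rcases lt_trichotomy v.2 0 with c | c | c
  · have c1 : ¬ (v.2 = 0) := by omega
    have c2 : ¬ (1 ≤ v.2) := by omega
    have c3 : v.2 ≤ -1 := by omega
    simp only [c1, c2, c3, false_implies, true_implies, true_and, and_true]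
    omega
  · have c2 : ¬ (1 ≤ v.2) := by omega
    have c3 : ¬ (v.2 ≤ -1) := by omega
    simp only [c, true_implies]
    simp only [show ¬ (1 ≤ (0:ℤ)) by omega, show ¬ ((0:ℤ) ≤ -1) by omega, false_implies,
      and_true, true_and]
    omega
  · have c1 : ¬ (v.2 = 0) := by omega
    have c2 : 1 ≤ v.2 := by omega
    have c3 : ¬ (v.2 ≤ -1) := by omega
    simp only [c1, c2, c3, false_implies, true_implies, true_and, and_true]
    by_cases h5 : j = 5
    · subst h5
      simp only [hdj, if_true, if_false, false_implies, true_implies, and_true]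
      omega
    · by_cases h4 : j = 4
      · subst h4
        simp only [hdj', if_true, if_false, false_implies, true_implies, true_and]
        omega
      · simp only [h5, h4, if_false, false_implies, true_and, and_true]
        omega

/-- the vertex before the landing vertex -/
theorem land_adj (p : Par) (hp : Ok p) {m : ℕ} {l : List V} (hl : l ∈ P (Om p) m)
    (h : ¬ Om p (l.headD (0, 0))) :
    ∃ v, Om p v ∧ Adj v (l.headD (0, 0)) ∧
      (l.headD (0, 0) = (0, 0) → W l = 5 ∧ v ≠ (1, 0)) ∧
      (Slit (l.headD (0, 0)) → W l = 5 → v.2 = 1 ∧ v.1 ≤ 0) := by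
  have hO : ∀ v, Om p v → ¬ Slit v := fun v hv => om_not_slit hv
  obtain ⟨z, v, K, rfl, D⟩ := classify (om_base hp) hl h
  simp only [List.headD_cons]
  have hOv := D.h5 v List.mem_cons_self
  have hne : z = (0, 0) → v ≠ (1, 0) := by
    intro hz0 hv
    apply D.h7 ?_ hz0
    by_contra hK
    have e := D.h6
    rw [List.getLast_cons hK] at e
    have h4 := (List.nodup_cons.1 D.h4).1
    apply h4
    rw [hv, ← e]
    exact List.mem_append_left _ (List.getLast_mem hK)
  refine ⟨v, hOv, D.h2, fun hz0 => ⟨land_zero hO D hz0, hne hz0⟩, ?_⟩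
  intro hs h5
  have hv := hO v hOv
  have ha := D.h2
  have hs' := hs
  rw [adj_iff] at ha
  by_cases hz0 : z = (0, 0)
  · have hv1 := hne hz0
    subst hz0
    unfold Slit at hv
    simp only at ha
    rcases ha with ha | ha | ha | ha
    · exfalso; omega
    · exfalso
      apply hv1
      exact Prod.ext (by simp only; omega) (by simp only; omega)
    · exfalso; omega
    · omega
  · have hz1 : z.1 ≠ 0 := fun e => hz0 (Prod.ext e hs.1)
    unfold Slit at hv hs'
    rcases ha with ha | ha | ha | ha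
    · exfalso; omega
    · exfalso; omega
    · have := land_slit_below hO D (by omega) (by omega) hs
      omega
    · omega

theorem no_five (p : Par) (hp : Ok p) (hb : ∀ x : ℤ, x ≤ 0 → ¬ Om p (x, 1)) {m : ℕ}
    {l : List V} (hl : l ∈ P (Om p) m) (h : ¬ Om p (l.headD (0, 0))) : W l ≠ 5 := by
  intro h5
  obtain ⟨v, h1, h2, h3, h4⟩ := land_adj p hp hl h
  have ho := class_om p hp m l hl h
  rw [h5] at ho
  have hs : Slit (l.headD (0, 0)) := by
    rcases ho with h | h | h | h | h | h | h | h | h | h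
    · exact h.2
    · exact h.2
    all_goals (exfalso; omega)
  obtain ⟨h6, h7⟩ := h4 hs h5
  apply hb v.1 h7
  have : v = (v.1, 1) := Prod.ext rfl h6
  rw [← this]
  exact h1

theorem mass_five (p : Par) (hp : Ok p) (hb : ∀ x : ℤ, x ≤ 0 → ¬ Om p (x, 1)) (n : ℕ) :
    Mass (Om p) n 5 = 0 := by
  unfold Mass
  apply Finset.sum_eq_zero
  intro m _
  have : Land (Om p) m 5 = ∅ := by
    rw [Finset.eq_empty_iff_forall_notMem]
    intro l hl
    unfold Land at hl
    rw [Finset.mem_filter] at hl
    exact no_five p hp hb hl.1 hl.2.1 hl.2.2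
  rw [this]
  simp

/-- indices of the walks which leave the hexagon inside the wedge -/
theorem index_far (j : ℕ) (N : ℤ) (hN : 1 ≤ N) {m : ℕ} {l : List V}
    (hl : l ∈ P (Om (wPar j N)) m) (h : ¬ Om (wPar j N) (l.headD (0, 0)))
    (hw : Wd j (l.headD (0, 0))) :
    -2 ≤ W l ∧ W l ≤ 3 ∧ (j = 5 → W l ≤ 2) ∧ (j = 4 → W l ≤ 1) := by
  obtain ⟨v, h1, h2, h3, h4⟩ := land_adj _ (ok_w j N hN) hl h
  have ho := class_om _ (ok_w j N hN) m l hl h
  rw [om_iff j N hN] at h1 h
  set z := l.headD (0, 0) with hz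
  have hx : ¬ Hx N z := fun c => h ⟨hw, c⟩
  clear h h3 h4
  clear_value z
  rw [adj_iff] at h2
  obtain ⟨w1, w2⟩ := hw
  obtain ⟨⟨u1, u2⟩, u3⟩ := h1
  unfold Hx at hx u3
  unfold Out wPar hexPar Slit at ho
  simp only at ho
  by_cases h5 : j = 5
  · have h4 : ¬ j = 4 := by omega
    simp only [h5, if_true, show ¬ ((5 : ℕ) = 4) by norm_num, if_false, true_implies,
      false_implies, and_true, true_and, ne_eq, not_true, not_false_iff, implies_true] at ho u2 w2 ⊢
    rcases ho with h | h | h | h | h | h | h | h | h | h <;>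
      rcases h2 with h2 | h2 | h2 | h2 <;> omega
  · by_cases h4 : j = 4
    · simp only [h4, if_true, show ¬ ((4 : ℕ) = 5) by norm_num, if_false, true_implies,
        false_implies, and_true, true_and, ne_eq, not_true, not_false_iff, implies_true] at ho u2 w2 ⊢
      rcases ho with h | h | h | h | h | h | h | h | h | h <;>
        rcases h2 with h2 | h2 | h2 | h2 <;> omega
    · simp only [h5, h4, if_false, true_implies,
        false_implies, and_true, true_and, ne_eq, not_true, not_false_iff, implies_true] at ho u2 w2 ⊢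
      rcases ho with h | h | h | h | h | h | h | h | h | h <;>
        rcases h2 with h2 | h2 | h2 | h2 <;> omega

/-- indices of the walks which hit the sides of the wedge -/
theorem index_near (j : ℕ) (N : ℤ) (hN : 1 ≤ N) {m : ℕ} {l : List V}
    (hl : l ∈ P (Om (wPar j N)) m) (h : ¬ Om (wPar j N) (l.headD (0, 0)))
    (hw : ¬ Wd j (l.headD (0, 0))) :
    (j = 5 → W l = 4 ∨ W l = -4) ∧ (j = 4 → W l = 3 ∨ W l = -4) ∧
      (j ≠ 5 → j ≠ 4 → W l = 5 ∨ W l = -4) := by
  have hb : j = 5 ∨ j = 4 → W l ≠ 5 := by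
    intro hj
    apply no_five _ (ok_w j N hN) _ hl h
    intro x hx hOm
    rw [om_iff j N hN] at hOm
    obtain ⟨⟨-, h2⟩, -⟩ := hOm
    simp only at h2
    have := h2 le_rfl
    rcases hj with hj | hj
    · have := this.1 hj; omega
    · have := this.2 hj; omega
  obtain ⟨v, h1, h2, h3, h4⟩ := land_adj _ (ok_w j N hN) hl h
  have ho := class_om _ (ok_w j N hN) m l hl h
  rw [om_iff j N hN] at h1
  set z := l.headD (0, 0) with hz
  clear h h3 h4
  clear_value z
  rw [adj_iff] at h2
  unfold Wd at hw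
  obtain ⟨⟨u1, u2⟩, u3⟩ := h1
  unfold Hx at u3
  unfold Out wPar hexPar Slit at ho
  simp only at ho
  by_cases h5 : j = 5
  · have h4 : ¬ j = 4 := by omega
    have hb' := hb (Or.inl h5)
    simp only [h5, if_true, show ¬ ((5 : ℕ) = 4) by norm_num, if_false, true_implies,
      false_implies, and_true, true_and, ne_eq, not_true, not_false_iff, implies_true] at ho u2 hw ⊢
    rcases ho with h | h | h | h | h | h | h | h | h | h <;>
      rcases h2 with h2 | h2 | h2 | h2 <;> omega
  · by_cases h4 : j = 4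
    · have hb' := hb (Or.inr h4)
      simp only [h4, if_true, show ¬ ((4 : ℕ) = 5) by norm_num, if_false, true_implies,
        false_implies, and_true, true_and, ne_eq, not_true, not_false_iff, implies_true] at ho u2 hw ⊢
      rcases ho with h | h | h | h | h | h | h | h | h | h <;>
        rcases h2 with h2 | h2 | h2 | h2 <;> omega
    · simp only [h5, h4, if_false, true_implies,
        false_implies, and_true, true_and, ne_eq, not_true, not_false_iff, implies_true] at ho u2 hw ⊢
      rcases ho with h | h | h | h | h | h | h | h | h | h <;>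
        rcases h2 with h2 | h2 | h2 | h2 <;> omega

end H978R3.Wedge
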