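import Pool.Agent.H978R3.Wedge.Sums

set_option autoImplicit false
set_option linter.unusedSimpArgs false

/-! The exact enumeration in the infinite wedge of 300 degrees; scales; sums over all lengths. -/

namespace H978R3.Wedge

open H978R2.Hex Complex

theorem val_box {D : V → Prop} : ∀ {l : List V}, Val D l →
    ∀ v ∈ l, |v.1| ≤ (l.length : ℤ) ∧ |v.2| ≤ (l.length : ℤ)
  | [], hl => hl.elim
  | [_], hl => hl.elim
  | [z, y], hl => by
    obtain ⟨rfl, rfl⟩ := hl
    intro v hv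
    simp only [List.mem_cons, List.not_mem_nil, or_false] at hv
    rcases hv with rfl | rfl <;> simp
  | z :: y :: x :: t, hl => by
    obtain ⟨h1, h2, h3, h4, h5⟩ := hl
    have ih := val_box h5
    intro v hv
    have e : ((z :: y :: x :: t).length : ℤ) = ((y :: x :: t).length : ℤ) + 1 := by simp
    rw [e]
    rcases List.mem_cons.1 hv with rfl | hv
    · have hy := ih y List.mem_cons_self
      have ha := h1
      rw [adj_iff] at ha
      obtain ⟨hy1, hy2⟩ := hy
      rw [abs_le] at hy1 hy2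
      rw [abs_le, abs_le]
      omega
    · have := ih v hv
      constructor <;> linarith [this.1, this.2]

theorem val_and {D H : V → Prop} : ∀ {l : List V}, Val D l → (∀ v ∈ l, H v) →
    Val (fun v => D v ∧ H v) l
  | [], hl, _ => hl.elim
  | [_], hl, _ => hl.elim
  | [_, _], hl, _ => hl
  | z :: y :: x :: t, hl, hH => by
    obtain ⟨h1, h2, h3, h4, h5⟩ := hl
    exact ⟨h1, h2, ⟨h3, hH y (by simp)⟩, h4, val_and h5 fun v hv => hH v (List.mem_cons_of_mem _ hv)⟩

theorem wd_om (j : ℕ) (N : ℤ) (hN : 1 ≤ N) : (fun v => Wd j v ∧ Hx N v) = Om (wPar j N) := by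
  funext v
  exact propext (om_iff j N hN v).symm

/-- walks of the infinite wedge are walks of a truncated wedge -/
theorem mem_trunc (j : ℕ) {m : ℕ} {l : List V} (hl : l ∈ P (Wd j) m) :
    l ∈ P (Om (wPar j (m + 3))) m := by
  rw [mem_P] at hl ⊢
  refine ⟨?_, hl.2⟩
  rw [← wd_om j _ (by omega)]
  apply val_and hl.1
  intro v hv
  have := val_box hl.1 v hv
  rw [hl.2, abs_le, abs_le] at this
  push_cast at this
  unfold Hx
  omega

theorem land_inf5 {m : ℕ} {l : List V} (hl : l ∈ P (Wd 5) m) (h : ¬ Wd 5 (l.headD (0, 0))) :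
    W l = 4 ∨ W l = -4 := by
  have h1 := mem_trunc 5 hl
  have h2 : ¬ Om (wPar 5 (m + 3)) (l.headD (0, 0)) := by
    rw [om_iff 5 _ (by omega)]
    exact fun c => h c.1
  exact (index_near 5 _ (by omega) h1 h2 h).1 rfl

theorem re_exp (w : ℤ) : (exp ((w : ℂ) * (Real.pi / 8) * I)).re = Real.cos ((w : ℝ) * (Real.pi / 8)) := by
  have e : ((w : ℂ) * (Real.pi / 8) * I) = (((w : ℝ) * (Real.pi / 8) : ℝ) : ℂ) * I := by
    push_cast; ring
  rw [e, Complex.exp_ofReal_mul_I_re]

/-- exact enumeration, list form -/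
theorem exact_list (n : ℕ) :
    ∑ l ∈ Free (Wd 5) n, Real.cos ((W l : ℝ) * (Real.pi / 8)) = mu0 ^ n := by
  have h1 : Wd 5 (1, 0) := by unfold Wd; simp
  have hO : ∀ v, Wd 5 v → ¬ Slit v := by
    rintro v ⟨h1, h2⟩ ⟨h3, h4⟩
    have := h1 h3
    omega
  have h := congrArg Complex.re (ident (Wd 5) h1 hO n)
  rw [Complex.re_sum] at h
  have e1 : ∑ l ∈ Free (Wd 5) n, (exp ((W l : ℂ) * (Real.pi / 8) * I)).re =
      ∑ l ∈ Free (Wd 5) n, Real.cos ((W l : ℝ) * (Real.pi / 8)) :=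
    Finset.sum_congr rfl fun l _ => re_exp (W l)
  rw [e1] at h
  rw [h]
  have e2 : ((mu0 : ℂ) ^ n) = ((mu0 ^ n : ℝ) : ℂ) := by push_cast; rfl
  rw [e2, Complex.re_ofReal_mul, Complex.sub_re, Complex.one_re, Complex.re_sum]
  have e3 : ∑ m ∈ Finset.range (n + 1), (∑ l ∈ (P (Wd 5) m).filter
      (fun l => ¬ Wd 5 (l.headD (0, 0))),
          exp ((W l : ℂ) * (Real.pi / 8) * I) * ((mu0 : ℂ)⁻¹) ^ m).re = 0 := by
    apply Finset.sum_eq_zero
    intro m _
    rw [Complex.re_sum]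
    apply Finset.sum_eq_zero
    intro l hl
    rw [Finset.mem_filter] at hl
    have e4 : (((mu0 : ℂ)⁻¹) ^ m) = (((mu0⁻¹) ^ m : ℝ) : ℂ) := by push_cast; rfl
    rw [e4, Complex.re_mul_ofReal, re_exp]
    have : Real.cos ((W l : ℝ) * (Real.pi / 8)) = 0 := by
      rcases land_inf5 hl.1 hl.2 with h | h <;> rw [h]
      · have : ((4 : ℤ) : ℝ) * (Real.pi / 8) = Real.pi / 2 := by push_cast; ring
        rw [this, Real.cos_pi_div_two]
      · have : ((-4 : ℤ) : ℝ) * (Real.pi / 8) = -(Real.pi / 2) := by push_cast; ring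
        rw [this, Real.cos_neg, Real.cos_pi_div_two]
    rw [this, zero_mul]
  rw [e3, sub_zero, mul_one]

/-- exact enumeration of the walks of the wedge of 300 degrees -/
theorem exact_walks (n : ℕ) :
    ∑ᶠ f ∈ {f : Fin (n + 2) → V | f ∈ WalkSet (Wd 5) n ∧ Wd 5 (f (Fin.last (n + 1)))},
      Real.cos ((turnSum f : ℝ) * (Real.pi / 8)) = mu0 ^ n := by
  rw [← exact_list n]
  rw [← finsum_mem_coe_finset]
  apply finsum_mem_eq_of_bijOn rl
  · refine ⟨?_, ?_, ?_⟩
    · rintro f ⟨h1, h2⟩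
      rw [Finset.mem_coe]
      unfold Free
      rw [Finset.mem_filter, rl_head]
      refine ⟨rl_mem h1, h2, ?_⟩
      intro h3
      rw [rl_succ, List.tail_cons, mem_rl] at h3
      obtain ⟨i, hi⟩ := h3
      have := congrArg Fin.val (h1.2.2.1 hi)
      simp at this
      omega
    · intro f _ g _ h
      exact rl_inj h
    · intro l hl
      rw [Finset.mem_coe] at hl
      unfold Free at hl
      rw [Finset.mem_filter] at hl
      obtain ⟨f, h1, h2⟩ := exists_rl hl.1 hl.2.2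
      refine ⟨f, ⟨h1, ?_⟩, h2⟩
      have h3 := rl_head f
      rw [h2] at h3
      rw [← h3]
      exact hl.2.1
  · rintro f _
    rw [W_rl]

/-! ### Scales -/

theorem scale (N : ℤ) (hN : 1 ≤ N) :
    ∃ i : ℕ, N < 32 * 8 ^ i ∧ (i = 0 ∨ 4 * 8 ^ i ≤ N) := by
  obtain ⟨M, rfl⟩ := Int.eq_ofNat_of_zero_le (by omega : 0 ≤ N)
  rcases Nat.lt_or_ge M 32 with h | h
  · exact ⟨0, by push_cast; omega, Or.inl rfl⟩
  · refine ⟨Nat.log 8 (M / 4), ?_, Or.inr ?_⟩
    · have h1 := Nat.lt_pow_succ_log_self (b := 8) (by norm_num) (M / 4)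
      rw [Nat.succ_eq_add_one, pow_succ] at h1
      have h2 : M < 4 * (M / 4) + 4 := by omega
      have : (M : ℤ) < ((32 * 8 ^ Nat.log 8 (M / 4) : ℕ) : ℤ) := by
        exact_mod_cast (by omega : M < 32 * 8 ^ Nat.log 8 (M / 4))
      push_cast at this
      exact this
    · have h1 := Nat.pow_log_le_self 8 (x := M / 4) (by omega)
      have : ((4 * 8 ^ Nat.log 8 (M / 4) : ℕ) : ℤ) ≤ (M : ℤ) := by
        exact_mod_cast (by omega : 4 * 8 ^ Nat.log 8 (M / 4) ≤ M)
      push_cast at this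
      exact this

theorem one_le_eight (i : ℕ) : (1 : ℤ) ≤ 8 ^ i := one_le_pow₀ (by norm_num)

theorem decay_scale (N : ℤ) (hN : 1 ≤ N) (i : ℕ) (hi : i = 0 ∨ 4 * 8 ^ i ≤ N) (n : ℕ)
    (hn : 12 * N ^ 2 ≤ n) :
    Gm N n ≤ (1 - Real.sin (Real.pi / 16) * rho ^ 5) ^ i := by
  have h0 : ∀ M : ℤ, 1 ≤ M → 12 * M ^ 2 ≤ n → Gm M n ≤ 1 := by
    intro M hM hMn
    have h1 := gm_ident M hM n hMn
    have h2 := mul_nonneg sin16_pos.le (Nm_nonneg 4 M n)
    have := Real.cos_le_one (Real.pi / 16)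
    linarith
  have hc : 0 ≤ 1 - Real.sin (Real.pi / 16) * rho ^ 5 := by
    have h1 := Real.sin_le_one (Real.pi / 16)
    have h2 : rho ^ 5 ≤ 1 := pow_le_one₀ rho_pos.le rho_lt_one.le
    have h3 := pow_pos rho_pos 5
    nlinarith [sin16_pos]
  rcases hi with rfl | hi
  · rw [pow_zero]; exact h0 N hN hn
  · have key : ∀ i : ℕ, 4 * 8 ^ i ≤ N →
        Gm (4 * 8 ^ i) n ≤ (1 - Real.sin (Real.pi / 16) * rho ^ 5) ^ i := by
      intro i
      induction i with
      | zero =>
        intro h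
        rw [pow_zero, pow_zero]
        rw [pow_zero] at h
        exact h0 _ (by norm_num) (by nlinarith)
      | succ i ih =>
        intro h
        have h8 := one_le_eight i
        rw [pow_succ] at h
        have h1 := ih (by omega)
        have h2 := decay4 (4 * 8 ^ i) (by omega) n (by nlinarith)
        have e : (4 * 8 ^ (i + 1) : ℤ) = 8 * (4 * 8 ^ i) := by ring
        rw [e]
        calc Gm (8 * (4 * 8 ^ i)) n ≤ (1 - Real.sin (Real.pi / 16) * rho ^ 5) *
              (1 - Real.sin (Real.pi / 16) * rho ^ 5) ^ i :=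
              h2.trans (mul_le_mul_of_nonneg_left h1 hc)
          _ = _ := by ring
    have h8 := one_le_eight i
    exact (gm_anti _ N (by omega) hi n hn).trans (key i hi)

theorem near_scale (N : ℤ) (hN : 1 ≤ N) (i : ℕ) (hi : i = 0 ∨ 4 * 8 ^ i ≤ N) (n : ℕ)
    (hn : 12 * N ^ 2 ≤ n) : (i : ℝ) * rho ^ 6 ≤ Nm 5 N n := by
  have hm : ∀ M : ℤ, Mass (Om (wPar 5 M)) n 4 ≤ Nm 5 M n := by
    intro M
    unfold Nm
    rw [kn5, Finset.sum_pair (by norm_num)]
    linarith [mass_nonneg (Om (wPar 5 M)) n (-4)]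
  rcases hi with rfl | hi
  · simp only [Nat.cast_zero, zero_mul]
    exact Nm_nonneg 5 N n
  · have key : ∀ i : ℕ, 4 * 8 ^ i ≤ N →
        (i : ℝ) * rho ^ 6 ≤ Mass (Om (wPar 5 (4 * 8 ^ i))) n 4 := by
      intro i
      induction i with
      | zero =>
        intro h
        simp only [Nat.cast_zero, zero_mul]
        exact mass_nonneg _ _ _
      | succ i ih =>
        intro h
        have h8 := one_le_eight i
        rw [pow_succ] at h
        have h1 := ih (by omega)
        have h2 := grow5 (4 * 8 ^ i) (by omega) n (by nlinarith)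
        have e : (4 * 8 ^ (i + 1) : ℤ) = 8 * (4 * 8 ^ i) := by ring
        rw [e]
        push_cast
        linarith
    have h8 := one_le_eight i
    exact ((key i hi).trans (side_mono 5 _ N (by omega) hi 4
      (Or.inr (Or.inr (Or.inr ⟨rfl, rfl⟩))) n)).trans (hm N)

theorem w6 (N : ℤ) : wPar 6 N = hexPar N := by simp [wPar, hexPar]

theorem far6 (N : ℤ) (hN : 1 ≤ N) (n : ℕ) (hn : 12 * N ^ 2 ≤ n) :
    1 + Real.sin (Real.pi / 8) * Mass (Om (wPar 6 N)) n 5 ≤ Fm 6 N n := by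
  have h := w_rot 6 N hN n hn 0
  have hnear : ∑ k ∈ KN 6, Real.cos ((k : ℝ) * (Real.pi / 8) + 0) * Mass (Om (wPar 6 N)) n k
      = - (Real.sin (Real.pi / 8) * Mass (Om (wPar 6 N)) n 5) := by
    rw [kn6, Finset.sum_pair (by norm_num)]
    have c4 : Real.cos (((5 : ℤ) : ℝ) * (Real.pi / 8) + 0) = - Real.sin (Real.pi / 8) := by
      have : ((5 : ℤ) : ℝ) * (Real.pi / 8) + 0 = Real.pi / 8 + Real.pi / 2 := by push_cast; ring
      rw [this, Real.cos_add_pi_div_two]
    have c5 : Real.cos (((-4 : ℤ) : ℝ) * (Real.pi / 8) + 0) = 0 := by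
      have : ((-4 : ℤ) : ℝ) * (Real.pi / 8) + 0 = -(Real.pi / 2) := by push_cast; ring
      rw [this, Real.cos_neg, Real.cos_pi_div_two]
    rw [c4, c5]
    ring
  rw [hnear, Real.cos_zero] at h
  have h1 : ∑ k ∈ KF 6, Real.cos ((k : ℝ) * (Real.pi / 8) + 0) * Mass (Om (wPar 6 N)) n k ≤
      Fm 6 N n := by
    apply Finset.sum_le_sum
    intro k _
    have := Real.cos_le_one ((k : ℝ) * (Real.pi / 8) + 0)
    have := mass_nonneg (Om (wPar 6 N)) n k
    nlinarith
  linarith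

theorem growth_scale (N : ℤ) (hN : 1 ≤ N) (i : ℕ) (hi : i = 0 ∨ 4 * 8 ^ i ≤ N) (n : ℕ)
    (hn : 12 * N ^ 2 ≤ n) : (201 / 200 : ℝ) ^ i ≤ Fm 6 N n := by
  refine le_trans ?_ (far6 N hN n hn)
  have hs := sin8_pos
  rcases hi with rfl | hi
  · rw [pow_zero]
    linarith [mul_nonneg hs.le (mass_nonneg (Om (wPar 6 N)) n 5)]
  · have key : ∀ i : ℕ, 4 * 8 ^ i ≤ N →
        (201 / 200 : ℝ) ^ i ≤ 1 + Real.sin (Real.pi / 8) * Mass (Om (wPar 6 (4 * 8 ^ i))) n 5 := by
      intro i
      induction i with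
      | zero =>
        intro h
        rw [pow_zero]
        linarith [mul_nonneg hs.le (mass_nonneg (Om (wPar 6 (4 * 8 ^ 0))) n 5)]
      | succ i ih =>
        intro h
        have h8 := one_le_eight i
        rw [pow_succ] at h
        have h1 := ih (by omega)
        have h2 := growth_step (4 * 8 ^ i) (by omega) n _
          (fun v hv => hex_finite _ v hv) (w_card (8 * (4 * 8 ^ i)) (by omega) n (by nlinarith))
        have e : (4 * 8 ^ (i + 1) : ℤ) = 8 * (4 * 8 ^ i) := by ring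
        rw [e, pow_succ]
        rw [w6] at h1 ⊢
        calc (201 / 200 : ℝ) ^ i * (201 / 200) = (1 + 1 / 200) * (201 / 200 : ℝ) ^ i := by ring
          _ ≤ _ := (mul_le_mul_of_nonneg_left h1 (by norm_num)).trans h2
    have h8 := one_le_eight i
    have h3 := mul_le_mul_of_nonneg_left (side_mono 6 _ N (by omega) hi 5 (Or.inr (Or.inl rfl)) n)
      hs.le
    linarith [key i hi]

/-! ### Sums over all lengths -/

theorem P_empty {D : V → Prop} [DecidablePred D] (S : Finset V) (hS : ∀ v, D v → v ∈ S)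
    (m : ℕ) (hm : S.card < m) : P D m = ∅ := by
  rw [Finset.eq_empty_iff_forall_notMem]
  intro l hl
  rw [mem_P] at hl
  obtain ⟨t1, t2⟩ := Val_tail hl.1
  have hnd : l.tail.dropLast.Nodup := t1.sublist (List.dropLast_sublist _)
  have hsub : l.tail.dropLast.toFinset ⊆ S := by
    intro v hv
    rw [List.mem_toFinset] at hv
    exact hS _ (t2 v hv)
  have hc := Finset.card_le_card hsub
  rw [List.toFinset_card_of_nodup hnd, List.length_dropLast, List.length_tail, hl.2] at hc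
  omega

end H978R3.Wedge
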