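import Pool.Agent.H978R3.Wedge.Exact

set_option autoImplicit false
set_option linter.unusedSimpArgs false

/-! Total masses at criticality and numerical bounds. -/

namespace H978R3.Wedge

open H978R2.Hex

/-- walks of `E` stopped when they leave the hexagon of radius `N` (inside `E`) -/
def Cross (E : V → Prop) (N : ℤ) (m : ℕ) : Set (Fin (m + 2) → V) :=
  {f | f ∈ WalkSet (fun v => E v ∧ Hx N v) m ∧
    E (f (Fin.last (m + 1))) ∧ ¬ Hx N (f (Fin.last (m + 1)))}

/-- walks in the truncated domain which end by hitting the complement of `E` -/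
def Hit (E : V → Prop) (N : ℤ) (m : ℕ) : Set (Fin (m + 2) → V) :=
  {f | f ∈ WalkSet (fun v => E v ∧ Hx N v) m ∧ ¬ E (f (Fin.last (m + 1)))}

/-- critical weight -/
noncomputable def xc : ℝ := 1 / Real.sqrt (2 + Real.sqrt 2)

noncomputable def Zc (E : V → Prop) (N : ℤ) : ℝ :=
  ∑' m : ℕ, (Set.ncard (Cross E N m) : ℝ) * xc ^ m

noncomputable def Zn (E : V → Prop) (N : ℤ) : ℝ :=
  ∑' m : ℕ, (Set.ncard (Hit E N m) : ℝ) * xc ^ m

theorem xc_eq : xc = mu0⁻¹ := by
  unfold xc mu0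
  rw [one_div]

theorem xc_pos : 0 < xc := by
  rw [xc_eq]
  exact inv_pos.mpr mu0_pos

theorem ws_empty (j : ℕ) (N : ℤ) (hN : 1 ≤ N) (n m : ℕ) (hn : 12 * N ^ 2 ≤ n) (hm : n < m) :
    WalkSet (fun v => Wd j v ∧ Hx N v) m = ∅ := by
  rw [Set.eq_empty_iff_forall_notMem]
  intro f hf
  rw [wd_om j N hN] at hf
  have h := rl_mem hf
  rw [P_empty _ (fun v hv => w_finite j N hN v hv) m ((w_card N hN n hn).trans_lt hm)] at h
  exact Finset.notMem_empty _ h

theorem Zc_eq (j : ℕ) (N : ℤ) (hN : 1 ≤ N) (n : ℕ) (hn : 12 * N ^ 2 ≤ n) :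
    Zc (Wd j) N = Fm j N n := by
  unfold Zc Fm
  rw [← sum_index (Om (wPar j N)) (Wd j) (KF j) (far_index j N hN) n]
  rw [tsum_eq_sum (s := Finset.range (n + 1))]
  · refine Finset.sum_congr rfl fun m _ => ?_
    rw [xc_eq]
    congr 2
    rw [← ncard_eq m (fun z => ¬ Om (wPar j N) z ∧ Wd j z)]
    · unfold Cross
      rw [wd_om j N hN]
      congr 1
      ext f
      simp only [Set.mem_ofPred_eq]
      constructor
      · rintro ⟨h1, h2, h3⟩
        exact ⟨h1, fun h => h3 ((om_iff j N hN _).1 h).2, h2⟩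
      · rintro ⟨h1, h2, h3⟩
        exact ⟨h1, h3, fun h => h2 ((om_iff j N hN _).2 ⟨h3, h⟩)⟩
    · intro l hl hQ ht
      obtain ⟨z, t, rfl, hg, hlen⟩ := good_of_mem hl
      simp only [List.headD_cons, List.tail_cons] at hQ ht
      have h1 := hg.last
      rcases List.eq_nil_or_concat t with h | ⟨s, a, h⟩
      · rw [h] at hlen; simp at hlen
      · subst h
        rw [List.concat_eq_append] at ht h1
        have ha : a = (0, 0) := by simpa using h1
        rcases List.mem_append.1 ht with h2 | h2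
        · have h3 := hg.om z (by simpa using h2)
          exact hQ.1 h3
        · rw [List.mem_singleton] at h2
          rw [h2, ha] at hQ
          have := hQ.2.1 rfl
          simp at this
  · intro m hm
    rw [Finset.mem_range, not_lt] at hm
    have : Cross (Wd j) N m = ∅ := by
      unfold Cross
      rw [ws_empty j N hN n m hn (by omega)]
      simp
    rw [this]
    simp

theorem Zn_eq (j : ℕ) (hj : j = 4 ∨ j = 5) (N : ℤ) (hN : 1 ≤ N) (n : ℕ) (hn : 12 * N ^ 2 ≤ n) :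
    Zn (Wd j) N = Nm j N n := by
  unfold Zn Nm
  rw [← sum_index (Om (wPar j N)) (fun z => ¬ Wd j z ∧ z ≠ (0, 0)) (KN j) ?_ n]
  · rw [tsum_eq_sum (s := Finset.range (n + 1))]
    · refine Finset.sum_congr rfl fun m _ => ?_
      rw [xc_eq]
      congr 2
      rw [← ncard_eq m (fun z => ¬ Om (wPar j N) z ∧ (¬ Wd j z ∧ z ≠ (0, 0)))]
      · unfold Hit
        rw [wd_om j N hN]
        congr 1
        ext f
        simp only [Set.mem_ofPred_eq]
        constructor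
        · rintro ⟨h1, h2⟩
          refine ⟨h1, fun h => h2 ((om_iff j N hN _).1 h).1, h2, ?_⟩
          intro h0
          have h3 := h1.2.2.1 (h0.trans h1.1.symm)
          have := congrArg Fin.val h3
          simp at this
        · rintro ⟨h1, h2, h3, _⟩
          exact ⟨h1, h3⟩
      · intro l hl hQ ht
        obtain ⟨z, t, rfl, hg, hlen⟩ := good_of_mem hl
        simp only [List.headD_cons, List.tail_cons] at hQ ht
        have h1 := hg.last
        rcases List.eq_nil_or_concat t with h | ⟨s, a, h⟩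
        · rw [h] at hlen; simp at hlen
        · subst h
          rw [List.concat_eq_append] at ht h1
          have ha : a = (0, 0) := by simpa using h1
          rcases List.mem_append.1 ht with h2 | h2
          · have h3 := hg.om z (by simpa using h2)
            exact hQ.1 h3
          · rw [List.mem_singleton] at h2
            exact hQ.2.2 (h2.trans ha)
    · intro m hm
      rw [Finset.mem_range, not_lt] at hm
      have : Hit (Wd j) N m = ∅ := by
        unfold Hit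
        rw [ws_empty j N hN n m hn (by omega)]
        simp
      rw [this]
      simp
  · intro m l hl h
    rw [← near_index j N hN m l hl h]
    constructor
    · exact fun h => h.1
    · intro hw
      refine ⟨hw, ?_⟩
      intro h0
      obtain ⟨v, h1, h2, h3, h4⟩ := land_adj _ (ok_w j N hN) hl h
      have h5 := (h3 h0).1
      have h6 := index_near j N hN hl h hw
      rcases hj with rfl | rfl
      · have := h6.2.1 rfl; omega
      · have := h6.1 rfl; omega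

/-! ### Numerical bounds -/

theorem rho2_ge : (0.2928 : ℝ) ≤ rho ^ 2 := by
  rw [rho_sq]
  have h1 := s2sq
  have h2 := s2_pos
  have : Real.sqrt 2 ≤ 1.41422 := by nlinarith
  linarith

theorem rho_ge : (0.541 : ℝ) ≤ rho := by
  have h1 := rho2_ge
  have h2 := rho_pos
  nlinarith

theorem sin16_ge : (0.194 : ℝ) ≤ Real.sin (Real.pi / 16) := by
  have h1 := Real.pi_gt_d2
  have h2 := Real.pi_lt_d2
  have h3 := Real.sin_gt_sub_cube (x := Real.pi / 16) (by linarith)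
  have h4 : (Real.pi / 16) ^ 3 ≤ (0.1970 : ℝ) ^ 3 :=
    pow_le_pow_left₀ (by linarith) (by linarith) 3
  have h5 : (0.1970 : ℝ) ^ 3 ≤ 0.0077 := by norm_num
  linarith

theorem c_ge : (0.0088 : ℝ) ≤ Real.sin (Real.pi / 16) * rho ^ 5 := by
  have h1 := sin16_ge
  have h2 : (0.2928 : ℝ) ^ 2 * 0.541 ≤ rho ^ 5 := by
    have e : rho ^ 5 = (rho ^ 2) ^ 2 * rho := by ring
    rw [e]
    exact mul_le_mul (pow_le_pow_left₀ (by norm_num) rho2_ge 2) rho_ge (by norm_num)
      (by positivity)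
  calc (0.0088 : ℝ) ≤ 0.194 * (0.2928 ^ 2 * 0.541) := by norm_num
    _ ≤ _ := mul_le_mul h1 h2 (by norm_num) sin16_pos.le

theorem rho6_ge : (1 / 40 : ℝ) ≤ rho ^ 6 := by
  have e : rho ^ 6 = (rho ^ 2) ^ 3 := by ring
  rw [e]
  calc (1 / 40 : ℝ) ≤ 0.2928 ^ 3 := by norm_num
    _ ≤ _ := pow_le_pow_left₀ (by norm_num) rho2_ge 3

/-- roots -/
theorem root_le {a b : ℝ} (ha : 0 ≤ a) (hb : 0 ≤ b) (q : ℕ) (hq : q ≠ 0) (h : a ≤ b ^ q) :
    a ^ ((1 : ℝ) / (q : ℝ)) ≤ b := by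
  have h1 : a ^ ((1 : ℝ) / (q : ℝ)) ≤ (b ^ q) ^ ((1 : ℝ) / (q : ℝ)) :=
    Real.rpow_le_rpow ha h (by positivity)
  rw [one_div] at h1 ⊢
  rwa [Real.pow_rpow_inv_natCast hb hq] at h1

theorem scale_root (N : ℤ) (hN : 1 ≤ N) (i q : ℕ) (hq : q ≠ 0) (h : N < 32 * 8 ^ i)
    (t : ℝ) (ht : 0 ≤ t) (h8 : 8 ≤ t ^ q) (h32 : (32 : ℝ) ≤ (10 / 9) ^ q) :
    (N : ℝ) ^ ((1 : ℝ) / (q : ℝ)) ≤ 10 / 9 * t ^ i := by
  apply root_le (by exact_mod_cast (by omega : 0 ≤ N)) (by positivity) q hq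
  have h1 : (N : ℝ) ≤ 32 * 8 ^ i := by exact_mod_cast h.le
  calc (N : ℝ) ≤ 32 * 8 ^ i := h1
    _ ≤ (10 / 9) ^ q * (t ^ q) ^ i := by
        apply mul_le_mul h32 (pow_le_pow_left₀ (by norm_num) h8 i) (by positivity) (by positivity)
    _ = (10 / 9 * t ^ i) ^ q := by rw [mul_pow]; congr 1; rw [← pow_mul, ← pow_mul, mul_comm]

/-! ### The bounds for the total masses -/

theorem big (N : ℤ) : ∃ n : ℕ, 12 * N ^ 2 ≤ n :=
  ⟨(12 * N ^ 2).toNat, Int.self_le_toNat _⟩

theorem Z300 (N : ℤ) (hN : 1 ≤ N) : 1 ≤ Zc (Wd 5) N ∧ Zc (Wd 5) N ≤ Real.sqrt 2 := by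
  obtain ⟨n, hn⟩ := big N
  rw [Zc_eq 5 N hN n hn]
  exact far5 N hN n hn

theorem num500a : (8 : ℝ) ≤ (201 / 200) ^ 500 := by
  have h : (3 : ℝ) ≤ (201 / 200) ^ 250 := by norm_num
  calc (8 : ℝ) ≤ 3 ^ 2 := by norm_num
    _ ≤ ((201 / 200) ^ 250) ^ 2 := pow_le_pow_left₀ (by norm_num) h 2
    _ = _ := by rw [← pow_mul]

theorem num500b : (32 : ℝ) ≤ (10 / 9) ^ 500 := by
  have h : (6 : ℝ) ≤ (10 / 9) ^ 250 := by norm_num
  calc (32 : ℝ) ≤ 6 ^ 2 := by norm_num
    _ ≤ ((10 / 9) ^ 250) ^ 2 := pow_le_pow_left₀ (by norm_num) h 2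
    _ = _ := by rw [← pow_mul]

theorem Z360 (N : ℤ) (hN : 1 ≤ N) : 9 / 10 * (N : ℝ) ^ ((1 : ℝ) / 500) ≤ Zc (Wd 6) N := by
  obtain ⟨n, hn⟩ := big N
  obtain ⟨i, hi1, hi2⟩ := scale N hN
  rw [Zc_eq 6 N hN n hn]
  have h1 := growth_scale N hN i hi2 n hn
  have h2 := scale_root N hN i 500 (by norm_num) hi1 (201 / 200) (by norm_num)
    num500a num500b
  norm_num at h2 ⊢
  linarith

theorem Z240 (N : ℤ) (hN : 1 ≤ N) : Zc (Wd 4) N ≤ 3 / 2 * (N : ℝ) ^ (-(1 : ℝ) / 250) := by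
  obtain ⟨n, hn⟩ := big N
  obtain ⟨i, hi1, hi2⟩ := scale N hN
  rw [Zc_eq 4 N hN n hn]
  have h1 := decay_scale N hN i hi2 n hn
  have h0 := gm_ge N n
  have hc := c_ge
  set c := Real.sin (Real.pi / 16) * rho ^ 5 with hcdef
  have hc1 : 0 ≤ 1 - c := by
    have h1 := Real.sin_le_one (Real.pi / 16)
    have h2 : rho ^ 5 ≤ 1 := pow_le_one₀ rho_pos.le rho_lt_one.le
    have h3 := pow_pos rho_pos 5
    have h4 : c ≤ 1 := by
      rw [hcdef]
      calc Real.sin (Real.pi / 16) * rho ^ 5 ≤ 1 * 1 :=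
            mul_le_mul h1 h2 h3.le (by norm_num)
        _ = 1 := by norm_num
    linarith
  have h2 := scale_root N hN i 250 (by norm_num) hi1 (1 / 0.9912) (by norm_num)
    (by norm_num) (by norm_num)
  have h3 : (1 - c) ^ i ≤ (0.9912 : ℝ) ^ i := pow_le_pow_left₀ hc1 (by linarith) i
  have hNpos : (0 : ℝ) < N := by exact_mod_cast (by omega : 0 < N)
  set r := (N : ℝ) ^ ((1 : ℝ) / (250 : ℕ)) with hr
  have hrpos : 0 < r := Real.rpow_pos_of_pos hNpos _
  have e : (N : ℝ) ^ (-(1 : ℝ) / 250) = r⁻¹ := by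
    rw [hr, ← Real.rpow_neg hNpos.le]
    congr 1
    norm_num
  rw [e]
  have h4 : (0.9912 : ℝ) ^ i * r ≤ 10 / 9 := by
    calc (0.9912 : ℝ) ^ i * r ≤ 0.9912 ^ i * (10 / 9 * (1 / 0.9912) ^ i) :=
          mul_le_mul_of_nonneg_left h2 (by positivity)
      _ = 10 / 9 * (0.9912 * (1 / 0.9912)) ^ i := by rw [mul_pow]; ring
      _ = 10 / 9 := by norm_num
  have h5 : Fm 4 N n * r ≤ 3 / 2 := by
    have h6 : Fm 4 N n ≤ 100 / 83 * 0.9912 ^ i := by linarith
    calc Fm 4 N n * r ≤ 100 / 83 * 0.9912 ^ i * r := mul_le_mul_of_nonneg_right h6 hrpos.le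
      _ = 100 / 83 * (0.9912 ^ i * r) := by ring
      _ ≤ 100 / 83 * (10 / 9) := mul_le_mul_of_nonneg_left h4 (by norm_num)
      _ ≤ 3 / 2 := by norm_num
  rw [← div_eq_mul_inv, le_div_iff₀ hrpos]
  exact h5

theorem S240 (N : ℤ) (hN : 1 ≤ N) : Zn (Wd 4) N ≤ 6 := by
  obtain ⟨n, hn⟩ := big N
  rw [Zn_eq 4 (Or.inl rfl) N hN n hn]
  have h1 := gm_ident N hN n hn
  have h2 := sin16_ge
  have h3 := Real.cos_le_one (Real.pi / 16)
  have h4 := Nm_nonneg 4 N n
  have h5 : 0 ≤ Gm N n := (mul_nonneg (by norm_num) (Fm_nonneg 4 N n)).trans (gm_ge N n)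
  nlinarith

theorem S300 (N : ℤ) (hN : 1 ≤ N) : (Real.log N - 4) / 100 ≤ Zn (Wd 5) N := by
  obtain ⟨n, hn⟩ := big N
  obtain ⟨i, hi1, hi2⟩ := scale N hN
  rw [Zn_eq 5 (Or.inr rfl) N hN n hn]
  have h1 := near_scale N hN i hi2 n hn
  have h2 := rho6_ge
  have hNpos : (0 : ℝ) < N := by exact_mod_cast (by omega : 0 < N)
  have h3 : Real.log N ≤ (5 + 3 * i) * Real.log 2 := by
    have h4 : (N : ℝ) ≤ 32 * 8 ^ i := by exact_mod_cast hi1.le
    have h5 := Real.log_le_log hNpos h4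
    have e : (32 * 8 ^ i : ℝ) = 2 ^ (5 + 3 * i) := by
      rw [pow_add, pow_mul]; norm_num
    rw [e, Real.log_pow] at h5
    push_cast at h5
    exact h5
  have h6 := Real.log_two_lt_d9
  have h7 : (0 : ℝ) ≤ i := Nat.cast_nonneg i
  have h8 : Real.log N ≤ (5 + 3 * i) * 0.6931471808 :=
    h3.trans (mul_le_mul_of_nonneg_left h6.le (by positivity))
  have h9 : (i : ℝ) * (1 / 40) ≤ (i : ℝ) * rho ^ 6 := mul_le_mul_of_nonneg_left h2 h7
  linarith

/-- monotonicity in the domain -/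
theorem Zc_mono {E : V → Prop} (j : ℕ) (hE : ∀ v, E v → Wd j v) (N : ℤ) (hN : 1 ≤ N) :
    Zc E N ≤ Zc (Wd j) N := by
  obtain ⟨n, hn⟩ := big N
  have hsub : ∀ m, Cross E N m ⊆ Cross (Wd j) N m := by
    rintro m f ⟨⟨h0, h1, h2, h3, h4⟩, h5, h6⟩
    exact ⟨⟨h0, h1, h2, h3, fun i hi => ⟨hE _ (h4 i hi).1, (h4 i hi).2⟩⟩, hE _ h5, h6⟩
  have hemp : ∀ m, m ∉ Finset.range (n + 1) → Cross (Wd j) N m = ∅ := by
    intro m hm
    rw [Finset.mem_range, not_lt] at hm
    unfold Cross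
    rw [ws_empty j N hN n m hn (by omega)]
    simp
  have hfin : ∀ m, (Cross (Wd j) N m).Finite := by
    intro m
    apply (walk_finite (fun v => Wd j v ∧ Hx N v) m).subset
    intro f hf
    exact hf.1
  apply Summable.tsum_le_tsum
  · intro m
    apply mul_le_mul_of_nonneg_right _ (pow_pos xc_pos m).le
    exact_mod_cast Set.ncard_le_ncard (hsub m) (hfin m)
  · apply summable_of_ne_finset_zero (s := Finset.range (n + 1))
    intro m hm
    have : Cross E N m = ∅ := Set.subset_eq_empty (hsub m) (hemp m hm)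
    rw [this]
    simp
  · apply summable_of_ne_finset_zero (s := Finset.range (n + 1))
    intro m hm
    rw [hemp m hm]
    simp

end H978R3.Wedge
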