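import Pool.Agent.H978R3.Wedge.Dom

set_option autoImplicit false
set_option linter.unusedSimpArgs false

/-! Opening the sides of truncated wedges. -/

namespace H978R3.Wedge

open H978R2.Hex Complex

theorem out_gen (p p' : Par) (k : ℤ) (z : V) (h : Out p k z)
    (e4 : k = 4 → p'.a4 = p.a4) (e3 : k = 3 → p'.c3 = p.c3) (e2 : k = 2 → p'.R = p.R)
    (e1 : k = 1 → p'.b = p.b) (e0 : k = 0 → p'.d = p.d) (f1 : k = -1 → p'.Q = p.Q)
    (f2 : k = -2 → p'.a2 = p.a2) (f3 : k = -3 → p'.c1 = p.c1) : ¬ Om p' z := by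
  rintro ⟨o1, o2, o3, o4, o5, o6, o7⟩
  rcases h with h | h | h | h | h | h | h | h | h | h
  · have := h.2.1
    have := h.2.2
    have := o6 h.2.1
    omega
  · have := h.2.1
    have := h.2.2
    have := o6 h.2.1
    omega
  · have e := e4 h.1
    have := o5 h.2.1
    rw [e] at this
    omega
  · have e := e3 h.1
    have := o5 h.2.1
    rw [e] at this
    omega
  · have e := e2 h.1
    rw [e] at o1
    omega
  · have e := e1 h.1
    rw [e] at o3
    omega
  · have e := e0 h.1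
    rw [e] at o4
    omega
  · have e := f1 h.1
    rw [e] at o2
    omega
  · have e := f2 h.1
    have := o7 h.2.1
    rw [e] at this
    omega
  · have e := f3 h.1
    have := o7 h.2.1
    rw [e] at this
    omega

/-- intermediate domains -/
def wStep (j : ℕ) (N : ℤ) (i : ℕ) : Par :=
  { stepPar N i with
    a4 := if j = 5 then 2 else (stepPar N i).a4
    c3 := if j = 4 then 1 else (stepPar N i).c3 }

theorem wStep_zero (j : ℕ) (N : ℤ) : wStep j N 0 = wPar j N := by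
  simp [wStep, wPar, stepPar, hexPar]

theorem ok_ws (j : ℕ) (N : ℤ) (hN : 4 ≤ N) (i : ℕ) : Ok (wStep j N i) := by
  constructor <;> simp only [wStep, stepPar] <;> (try split_ifs) <;> omega

theorem ws_om (j : ℕ) (N : ℤ) (hN : 4 ≤ N) (i : ℕ) (v : V) (h : Om (wStep j N i) v) :
    Om (stepPar N i) v := by
  refine om_mono ?_ ?_ ?_ ?_ ?_ ?_ ?_ ?_ h <;> simp only [wStep, stepPar] <;>
    (try split_ifs) <;> omega

theorem ws_sub (j : ℕ) (N : ℤ) (hN : 4 ≤ N) (i : ℕ) (v : V) (h : Om (wStep j N i) v) :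
    Om (wStep j N (i + 1)) v := by
  refine om_mono ?_ ?_ ?_ ?_ ?_ ?_ ?_ ?_ h <;> simp only [wStep, stepPar] <;>
    (try split_ifs) <;> omega

theorem ws_big (j : ℕ) (N : ℤ) (hN : 4 ≤ N) (i : ℕ) (v : V) (h : Om (wStep j N i) v) :
    Om (wPar j (8 * N)) v := by
  refine om_mono ?_ ?_ ?_ ?_ ?_ ?_ ?_ ?_ h <;> simp only [wStep, wPar, stepPar, hexPar] <;>
    (try split_ifs) <;> omega

theorem ws_out (j : ℕ) (N : ℤ) (i : ℕ) (k : ℤ) (hk : k ≠ (i : ℤ) - 2) (z : V)
    (h : Out (wStep j N i) k z) : ¬ Om (wStep j N (i + 1)) z := by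
  refine out_gen _ _ k z h ?_ ?_ ?_ ?_ ?_ ?_ ?_ ?_ <;> intro hk' <;>
    simp only [wStep, stepPar] <;> (try split_ifs) <;> omega

theorem out_not_om {p : Par} {k : ℤ} {z : V} (h : Out p k z) : ¬ Om p z :=
  out_gen p p k z h (fun _ => rfl) (fun _ => rfl) (fun _ => rfl) (fun _ => rfl) (fun _ => rfl)
    (fun _ => rfl) (fun _ => rfl) (fun _ => rfl)

theorem ws_inactive (j : ℕ) (N : ℤ) (hN : 4 ≤ N) (i : ℕ) (hi : i ≤ 5) (hij : j = 4 → i ≤ 4)
    (v z : V) (hv : Om (wStep j N (i + 1)) v) (ha : Adj v z)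
    (_hz : ¬ Om (wStep j N (i + 1)) z) : ¬ Out (wStep j N (i + 1)) ((i : ℤ) - 2) z := by
  intro h
  have h1 : Out (stepPar N (i + 1)) ((i : ℤ) - 2) z := by
    rcases h with h | h | h | h | h | h | h | h | h | h
    · exact Or.inl h
    · exact Or.inr (Or.inl h)
    · have := h.1
      exfalso
      omega
    · right; right; right; left
      refine ⟨h.1, h.2.1, ?_⟩
      have h3 := h.2.2
      have h4 : ¬ j = 4 := by
        intro h4
        have := hij h4
        have := h.1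
        omega
      have e : (wStep j N (i + 1)).c3 = (stepPar N (i + 1)).c3 := by
        simp only [wStep, h4, if_false]
      rw [e] at h3
      exact h3
    · right; right; right; right; left
      exact h
    · right; right; right; right; right; left
      exact h
    · right; right; right; right; right; right; left
      exact h
    · right; right; right; right; right; right; right; left
      exact h
    · right; right; right; right; right; right; right; right; left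
      exact h
    · right; right; right; right; right; right; right; right; right
      exact h
  exact inactive_step N hN i (by omega) v z (ws_om j N hN (i + 1) v hv) ha (out_not_om h1) h1

theorem w_finite (j : ℕ) (M : ℤ) (hM : 1 ≤ M) (v : V) (h : Om (wPar j M) v) :
    v ∈ Finset.Icc (-2 * M + 1) (2 * M) ×ˢ Finset.Icc (-M) M := by
  apply hex_finite
  refine om_mono ?_ ?_ ?_ ?_ ?_ ?_ ?_ ?_ h <;> simp only [wPar, hexPar] <;>
    (try split_ifs) <;> omega

/-- bound for the number of vertices -/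
theorem w_card (M : ℤ) (hM : 1 ≤ M) (n : ℕ) (hn : 12 * M ^ 2 ≤ n) :
    (Finset.Icc (-2 * M + 1) (2 * M) ×ˢ Finset.Icc (-M) M : Finset V).card ≤ n := by
  rw [Finset.card_product, Int.card_Icc, Int.card_Icc]
  have e1 : (2 * M + 1 - (-2 * M + 1)).toNat = (4 * M).toNat := by congr 1; ring
  have e2 : (M + 1 - -M).toNat = (2 * M + 1).toNat := by congr 1; ring
  rw [e1, e2]
  zify
  rw [Int.toNat_of_nonneg (by omega), Int.toNat_of_nonneg (by omega)]
  nlinarith

theorem w_ident (j : ℕ) (p : Par) (hp : Ok p) (M : ℤ) (hM : 1 ≤ M)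
    (hs : ∀ v, Om p v → Om (wPar j M) v) (n : ℕ) (hn : 12 * M ^ 2 ≤ n) :
    ∑ k ∈ Finset.Icc (-4 : ℤ) 5, exp ((k : ℂ) * (Real.pi / 8) * I) * (Mass (Om p) n k : ℂ) = 1 :=
  mass_identity p hp _ (fun v hv => w_finite j M hM v (hs v hv)) n (w_card M hM n hn)

/-- the potential after opening `i` sides -/
theorem w_pot_step (j : ℕ) (N : ℤ) (hN : 4 ≤ N) (n : ℕ) (hn : 12 * (8 * N) ^ 2 ≤ n)
    (i : ℕ) (hi : i ≤ 5) (hij : j = 4 → i ≤ 4) :
    ∑ k ∈ Finset.Icc ((i : ℤ) - 2) 5, rho ^ (5 - k).toNat * Mass (Om (wStep j N i)) n k ≤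
      ∑ k ∈ Finset.Icc (((i + 1 : ℕ) : ℤ) - 2) 5,
        rho ^ (5 - k).toNat * Mass (Om (wStep j N (i + 1))) n k := by
  have h := potential (fun k => Mass (Om (wStep j N i)) n k)
    (fun k => Mass (Om (wStep j N (i + 1))) n k) ((i : ℤ) - 2) (by omega) (by omega)
    (w_ident j _ (ok_ws j N hN i) (8 * N) (by omega) (ws_big j N hN i) n hn)
    (w_ident j _ (ok_ws j N hN (i + 1)) (8 * N) (by omega) (ws_big j N hN (i + 1)) n hn)
    (fun k _ hk => mass_mono _ _ (ok_ws j N hN i) (ws_sub j N hN i) k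
      (ws_out j N i k hk) n)
    (mass_zero _ (ok_ws j N hN (i + 1)) _ (ws_inactive j N hN i hi hij) n)
  have e : ((i + 1 : ℕ) : ℤ) - 2 = (i : ℤ) - 2 + 1 := by push_cast; ring
  rw [e]
  exact h

theorem w_pot (j : ℕ) (N : ℤ) (hN : 4 ≤ N) (n : ℕ) (hn : 12 * (8 * N) ^ 2 ≤ n)
    (i : ℕ) (hi : i ≤ 6) (hij : j = 4 → i ≤ 5) :
    ∑ k ∈ Finset.Icc (-2 : ℤ) 5, rho ^ (5 - k).toNat * Mass (Om (wPar j N)) n k ≤
      ∑ k ∈ Finset.Icc ((i : ℤ) - 2) 5, rho ^ (5 - k).toNat * Mass (Om (wStep j N i)) n k := by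
  induction i with
  | zero => simp [wStep_zero]
  | succ i ih =>
    exact (ih (by omega) (fun h => by have := hij h; omega)).trans
      (w_pot_step j N hN n hn i (by omega) (fun h => by have := hij h; omega))

theorem blocked (p : Par) (h : 2 ≤ p.a4 ∨ 1 ≤ p.c3) (x : ℤ) (hx : x ≤ 0) : ¬ Om p (x, 1) := by
  rintro ⟨o1, o2, o3, o4, o5, o6, o7⟩
  have := o5 le_rfl
  simp only at this
  omega

/-- scale step for the wedge of 300 degrees -/
theorem step5 (N : ℤ) (hN : 4 ≤ N) (n : ℕ) (hn : 12 * (8 * N) ^ 2 ≤ n) :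
    ∑ k ∈ Finset.Icc (-2 : ℤ) 5, rho ^ (5 - k).toNat * Mass (Om (wPar 5 N)) n k ≤
      rho * Mass (Om (wPar 5 (8 * N))) n 4 := by
  refine (w_pot 5 N hN n hn 6 le_rfl (by omega)).trans ?_
  have e7 : Finset.Icc (((6 : ℕ) : ℤ) - 2) 5 = {4, 5} := by
    ext k
    simp only [Finset.mem_Icc, Finset.mem_insert, Finset.mem_singleton]
    push_cast
    omega
  rw [e7, Finset.sum_pair (by norm_num)]
  have h5 : Mass (Om (wStep 5 N 6)) n 5 = 0 :=
    mass_five _ (ok_ws 5 N hN 6) (blocked _ (by left; simp [wStep])) n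
  rw [h5]
  have e8 : ((5 : ℤ) - 4).toNat = 1 := rfl
  rw [e8, pow_one, mul_zero, add_zero]
  apply mul_le_mul_of_nonneg_left _ rho_pos.le
  refine mass_mono _ _ (ok_ws 5 N hN 6) (ws_big 5 N hN 6) 4 ?_ n
  intro z hz
  refine out_gen _ _ 4 z hz ?_ ?_ ?_ ?_ ?_ ?_ ?_ ?_ <;> intro hk' <;>
    first | omega | simp [wStep, wPar]

/-- scale step for the wedge of 240 degrees -/
theorem step4 (N : ℤ) (hN : 4 ≤ N) (n : ℕ) (hn : 12 * (8 * N) ^ 2 ≤ n) :
    ∑ k ∈ Finset.Icc (-2 : ℤ) 5, rho ^ (5 - k).toNat * Mass (Om (wPar 4 N)) n k ≤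
      rho ^ 2 * Mass (Om (wPar 4 (8 * N))) n 3 := by
  refine (w_pot 4 N hN n hn 5 (by norm_num) (by omega)).trans ?_
  have e7 : Finset.Icc (((5 : ℕ) : ℤ) - 2) 5 = {3, 4, 5} := by
    ext k
    simp only [Finset.mem_Icc, Finset.mem_insert, Finset.mem_singleton]
    push_cast
    omega
  rw [e7, Finset.sum_insert (by norm_num), Finset.sum_pair (by norm_num)]
  have h5 : Mass (Om (wStep 4 N 5)) n 5 = 0 :=
    mass_five _ (ok_ws 4 N hN 5) (blocked _ (by right; simp [wStep])) n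
  have h4 : Mass (Om (wStep 4 N 5)) n 4 = 0 := by
    apply mass_zero _ (ok_ws 4 N hN 5)
    intro v z hv ha _ ho
    rw [adj_iff] at ha
    obtain ⟨o1, o2, o3, o4, o5, o6, o7⟩ := hv
    unfold Out at ho
    simp only [wStep, stepPar] at ho o5
    norm_num at ho o5
    rcases lt_trichotomy v.2 0 with c | c | c
    · omega
    · have := o6 c; omega
    · have := o5 (by omega); omega
  rw [h5, h4]
  have e8 : ((5 : ℤ) - 3).toNat = 2 := rfl
  rw [e8, mul_zero, mul_zero, add_zero, add_zero]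
  apply mul_le_mul_of_nonneg_left _ (pow_pos rho_pos 2).le
  refine mass_mono _ _ (ok_ws 4 N hN 5) (ws_big 4 N hN 5) 3 ?_ n
  intro z hz
  refine out_gen _ _ 3 z hz ?_ ?_ ?_ ?_ ?_ ?_ ?_ ?_ <;> intro hk' <;>
    first | omega | simp [wStep, wPar]

/-- monotonicity in the radius of the masses on the sides of the wedge -/
theorem side_mono (j : ℕ) (N M : ℤ) (hN : 1 ≤ N) (hNM : N ≤ M) (k : ℤ)
    (hk : k = -4 ∨ (k = 5) ∨ (j = 4 ∧ k = 3) ∨ (j = 5 ∧ k = 4)) (n : ℕ) :
    Mass (Om (wPar j N)) n k ≤ Mass (Om (wPar j M)) n k := by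
  refine mass_mono _ _ (ok_w j N hN) ?_ k ?_ n
  · intro v hv
    refine om_mono ?_ ?_ ?_ ?_ ?_ ?_ ?_ ?_ hv <;> simp only [wPar, hexPar] <;>
      (try split_ifs) <;> omega
  · intro z hz
    rcases hk with rfl | rfl | ⟨rfl, rfl⟩ | ⟨rfl, rfl⟩ <;>
    refine out_gen _ _ _ z hz ?_ ?_ ?_ ?_ ?_ ?_ ?_ ?_ <;> intro hk' <;>
      first | omega | simp [wPar]

end H978R3.Wedge
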