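import Pool.Agent.H978R3.Wedge.Pot

set_option autoImplicit false
set_option linter.unusedSimpArgs false

/-! Total masses of truncated wedges. -/

namespace H978R3.Wedge

open H978R2.Hex Complex

theorem sum_index (D : V → Prop) [DecidablePred D] (Q : V → Prop) [DecidablePred Q]
    (T : Finset ℤ)
    (h : ∀ m, ∀ l ∈ P D m, ¬ D (l.headD (0, 0)) → (Q (l.headD (0, 0)) ↔ W l ∈ T)) (n : ℕ) :
    ∑ m ∈ Finset.range (n + 1),
      (((P D m).filter (fun l => ¬ D (l.headD (0, 0)) ∧ Q (l.headD (0, 0)))).card : ℝ) *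
        (mu0⁻¹) ^ m = ∑ k ∈ T, Mass D n k := by
  unfold Mass
  rw [Finset.sum_comm]
  refine Finset.sum_congr rfl fun m _ => ?_
  rw [← Finset.sum_mul]
  congr 1
  rw [Finset.card_eq_sum_card_fiberwise (f := W) (t := T)]
  · push_cast
    refine Finset.sum_congr rfl fun k hk => ?_
    congr 2
    unfold Land
    ext l
    simp only [Finset.mem_filter]
    constructor
    · rintro ⟨⟨h1, h2, h3⟩, h4⟩
      exact ⟨h1, h2, h4⟩
    · rintro ⟨h1, h2, h4⟩
      exact ⟨⟨h1, h2, (h m l h1 h2).2 (h4 ▸ hk)⟩, h4⟩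
  · intro l hl
    rw [Finset.mem_coe, Finset.mem_filter] at hl
    exact (h m l hl.1 hl.2.1).1 hl.2.2

theorem mass_none (D : V → Prop) [DecidablePred D] (k : ℤ)
    (h : ∀ m, ∀ l ∈ P D m, ¬ D (l.headD (0, 0)) → W l ≠ k) (n : ℕ) : Mass D n k = 0 := by
  unfold Mass
  apply Finset.sum_eq_zero
  intro m _
  have : Land D m k = ∅ := by
    rw [Finset.eq_empty_iff_forall_notMem]
    intro l hl
    unfold Land at hl
    rw [Finset.mem_filter] at hl
    exact h m l hl.1 hl.2.1 hl.2.2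
  rw [this]
  simp

/-- the index set of the far walks -/
noncomputable def KF (j : ℕ) : Finset ℤ := if j = 5 then Finset.Icc (-2) 2 else
  if j = 4 then Finset.Icc (-2) 1 else Finset.Icc (-2) 3

/-- the index set of the near walks -/
noncomputable def KN (j : ℕ) : Finset ℤ := if j = 5 then {4, -4} else if j = 4 then {3, -4} else {5, -4}

theorem far_index (j : ℕ) (N : ℤ) (hN : 1 ≤ N) (m : ℕ) (l : List V)
    (hl : l ∈ P (Om (wPar j N)) m) (h : ¬ Om (wPar j N) (l.headD (0, 0))) :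
    (Wd j (l.headD (0, 0)) ↔ W l ∈ KF j) := by
  unfold KF
  constructor
  · intro hw
    obtain ⟨h1, h2, h3, h4⟩ := index_far j N hN hl h hw
    split_ifs with c1 c2
    · rw [Finset.mem_Icc]; exact ⟨h1, h3 c1⟩
    · rw [Finset.mem_Icc]; exact ⟨h1, h4 c2⟩
    · rw [Finset.mem_Icc]; exact ⟨h1, h2⟩
  · intro hk
    by_contra hw
    obtain ⟨h1, h2, h3⟩ := index_near j N hN hl h hw
    split_ifs at hk with c1 c2
    · have := h1 c1
      rw [Finset.mem_Icc] at hk
      omega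
    · have := h2 c2
      rw [Finset.mem_Icc] at hk
      omega
    · have := h3 c1 c2
      rw [Finset.mem_Icc] at hk
      omega

theorem near_index (j : ℕ) (N : ℤ) (hN : 1 ≤ N) (m : ℕ) (l : List V)
    (hl : l ∈ P (Om (wPar j N)) m) (h : ¬ Om (wPar j N) (l.headD (0, 0))) :
    (¬ Wd j (l.headD (0, 0)) ↔ W l ∈ KN j) := by
  unfold KN
  constructor
  · intro hw
    obtain ⟨h1, h2, h3⟩ := index_near j N hN hl h hw
    split_ifs with c1 c2
    · simpa using h1 c1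
    · simpa using h2 c2
    · simpa using h3 c1 c2
  · intro hk hw
    obtain ⟨h1, h2, h3, h4⟩ := index_far j N hN hl h hw
    split_ifs at hk with c1 c2 <;> simp only [Finset.mem_insert, Finset.mem_singleton] at hk
    · have := h3 c1
      omega
    · have := h4 c2
      omega
    · omega

theorem all_index (j : ℕ) (N : ℤ) (hN : 1 ≤ N) (k : ℤ) (hk : k ∉ KF j ∪ KN j) (n : ℕ) :
    Mass (Om (wPar j N)) n k = 0 := by
  apply mass_none
  intro m l hl h hW
  apply hk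
  rw [Finset.mem_union, ← hW]
  by_cases hw : Wd j (l.headD (0, 0))
  · exact Or.inl ((far_index j N hN m l hl h).1 hw)
  · exact Or.inr ((near_index j N hN m l hl h).1 hw)

theorem rot_identity (M : ℤ → ℝ) (φ : ℝ)
    (h : ∑ k ∈ Finset.Icc (-4 : ℤ) 5, exp ((k : ℂ) * (Real.pi / 8) * I) * (M k : ℂ) = 1) :
    ∑ k ∈ Finset.Icc (-4 : ℤ) 5, Real.cos ((k : ℝ) * (Real.pi / 8) + φ) * M k = Real.cos φ := by
  have h1 : exp ((φ : ℂ) * I) *
      ∑ k ∈ Finset.Icc (-4 : ℤ) 5, exp ((k : ℂ) * (Real.pi / 8) * I) * (M k : ℂ) =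
      exp ((φ : ℂ) * I) := by rw [h, mul_one]
  rw [Finset.mul_sum] at h1
  have h2 := congrArg Complex.re h1
  rw [Complex.re_sum, Complex.exp_ofReal_mul_I_re] at h2
  rw [← h2]
  refine Finset.sum_congr rfl fun k _ => ?_
  rw [← mul_assoc, ← Complex.exp_add]
  have e : ((φ : ℂ) * I + (k : ℂ) * (Real.pi / 8) * I) =
      (((k : ℝ) * (Real.pi / 8) + φ : ℝ) : ℂ) * I := by
    push_cast; ring
  rw [e, Complex.re_mul_ofReal, Complex.exp_ofReal_mul_I_re]

/-- the rotated identity, only the active sides -/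
theorem w_rot (j : ℕ) (N : ℤ) (hN : 1 ≤ N) (n : ℕ) (hn : 12 * N ^ 2 ≤ n) (φ : ℝ) :
    ∑ k ∈ KF j, Real.cos ((k : ℝ) * (Real.pi / 8) + φ) * Mass (Om (wPar j N)) n k +
    ∑ k ∈ KN j, Real.cos ((k : ℝ) * (Real.pi / 8) + φ) * Mass (Om (wPar j N)) n k =
      Real.cos φ := by
  rw [← rot_identity (fun k => Mass (Om (wPar j N)) n k) φ
    (w_ident j _ (ok_w j N hN) N hN (fun v hv => hv) n hn)]
  have hdis : Disjoint (KF j) (KN j) := by
    rw [Finset.disjoint_left]
    unfold KF KN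
    intro k h1 h2
    split_ifs at h1 h2 with c1 c2 <;>
      simp only [Finset.mem_insert, Finset.mem_singleton, Finset.mem_Icc] at h1 h2 <;> omega
  rw [← Finset.sum_union hdis]
  apply Finset.sum_subset
  · intro k hk
    rw [Finset.mem_union] at hk
    unfold KF KN at hk
    rw [Finset.mem_Icc]
    split_ifs at hk with c1 c2 <;>
      simp only [Finset.mem_insert, Finset.mem_singleton, Finset.mem_Icc] at hk <;> omega
  · intro k _ hk
    rw [all_index j N hN k hk n, mul_zero]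

/-- total mass of the far walks -/
noncomputable def Fm (j : ℕ) (N : ℤ) (n : ℕ) : ℝ := ∑ k ∈ KF j, Mass (Om (wPar j N)) n k

/-- total mass of the near walks -/
noncomputable def Nm (j : ℕ) (N : ℤ) (n : ℕ) : ℝ := ∑ k ∈ KN j, Mass (Om (wPar j N)) n k

theorem Fm_nonneg (j : ℕ) (N : ℤ) (n : ℕ) : 0 ≤ Fm j N n :=
  Finset.sum_nonneg fun _ _ => mass_nonneg _ _ _

theorem Nm_nonneg (j : ℕ) (N : ℤ) (n : ℕ) : 0 ≤ Nm j N n :=
  Finset.sum_nonneg fun _ _ => mass_nonneg _ _ _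

theorem kf5 : KF 5 = Finset.Icc (-2) 2 := rfl
theorem kf4 : KF 4 = Finset.Icc (-2) 1 := rfl
theorem kf6 : KF 6 = Finset.Icc (-2) 3 := rfl
theorem kn5 : KN 5 = {4, -4} := rfl
theorem kn4 : KN 4 = {3, -4} := rfl
theorem kn6 : KN 6 = {5, -4} := rfl

theorem cos_mono {x y : ℝ} (hxy : |x| ≤ y) (hy : y ≤ Real.pi) : Real.cos y ≤ Real.cos x := by
  rw [← Real.cos_abs x]
  exact Real.cos_le_cos_of_nonneg_of_le_pi (abs_nonneg x) hy hxy

/-- the wedge of 300 degrees: the total mass of the far walks is between `1` and `√2` -/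
theorem far5 (N : ℤ) (hN : 1 ≤ N) (n : ℕ) (hn : 12 * N ^ 2 ≤ n) :
    1 ≤ Fm 5 N n ∧ Fm 5 N n ≤ Real.sqrt 2 := by
  have h := w_rot 5 N hN n hn 0
  have hnear : ∑ k ∈ KN 5, Real.cos ((k : ℝ) * (Real.pi / 8) + 0) * Mass (Om (wPar 5 N)) n k
      = 0 := by
    rw [kn5, Finset.sum_pair (by norm_num)]
    have c4 : Real.cos (((4 : ℤ) : ℝ) * (Real.pi / 8) + 0) = 0 := by
      have : ((4 : ℤ) : ℝ) * (Real.pi / 8) + 0 = Real.pi / 2 := by push_cast; ring
      rw [this, Real.cos_pi_div_two]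
    have c5 : Real.cos (((-4 : ℤ) : ℝ) * (Real.pi / 8) + 0) = 0 := by
      have : ((-4 : ℤ) : ℝ) * (Real.pi / 8) + 0 = -(Real.pi / 2) := by push_cast; ring
      rw [this, Real.cos_neg, Real.cos_pi_div_two]
    rw [c4, c5]
    ring
  rw [hnear, add_zero, Real.cos_zero] at h
  have h1 : ∑ k ∈ KF 5, Real.cos ((k : ℝ) * (Real.pi / 8) + 0) * Mass (Om (wPar 5 N)) n k ≤
      Fm 5 N n := by
    apply Finset.sum_le_sum
    intro k _
    have := Real.cos_le_one ((k : ℝ) * (Real.pi / 8) + 0)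
    have := mass_nonneg (Om (wPar 5 N)) n k
    nlinarith
  have h2 : Real.sqrt 2 / 2 * Fm 5 N n ≤
      ∑ k ∈ KF 5, Real.cos ((k : ℝ) * (Real.pi / 8) + 0) * Mass (Om (wPar 5 N)) n k := by
    unfold Fm
    rw [Finset.mul_sum]
    apply Finset.sum_le_sum
    intro k hk
    apply mul_le_mul_of_nonneg_right _ (mass_nonneg _ _ _)
    rw [← Real.cos_pi_div_four]
    rw [kf5, Finset.mem_Icc] at hk
    apply cos_mono
    · have h3 : (-2 : ℝ) ≤ k := by exact_mod_cast hk.1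
      have h4 : (k : ℝ) ≤ 2 := by exact_mod_cast hk.2
      have hpi := Real.pi_pos
      rw [abs_le]
      constructor <;> nlinarith
    · have := Real.pi_pos; linarith
  refine ⟨by linarith, ?_⟩
  have h5 := s2sq
  have h6 := s2_pos
  rw [h] at h2
  nlinarith

/-- the mass on the upper side of the wedge of 300 degrees grows -/
theorem grow5 (N : ℤ) (hN : 4 ≤ N) (n : ℕ) (hn : 12 * (8 * N) ^ 2 ≤ n) :
    Mass (Om (wPar 5 N)) n 4 + rho ^ 6 ≤ Mass (Om (wPar 5 (8 * N))) n 4 := by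
  have h := step5 N hN n hn
  have hF := (far5 N (by omega) n (by nlinarith)).1
  have e : Finset.Icc (-2 : ℤ) 5 = insert 5 (insert 4 (insert 3 (Finset.Icc (-2 : ℤ) 2))) := by
    ext k
    simp only [Finset.mem_insert, Finset.mem_Icc]
    omega
  rw [e, Finset.sum_insert (by simp), Finset.sum_insert (by simp),
    Finset.sum_insert (by simp)] at h
  have h1 : rho ^ 7 * Fm 5 N n ≤
      ∑ k ∈ Finset.Icc (-2 : ℤ) 2, rho ^ (5 - k).toNat * Mass (Om (wPar 5 N)) n k := by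
    unfold Fm
    rw [kf5, Finset.mul_sum]
    apply Finset.sum_le_sum
    intro k hk
    rw [Finset.mem_Icc] at hk
    apply mul_le_mul_of_nonneg_right _ (mass_nonneg _ _ _)
    exact pow_le_pow_of_le_one rho_pos.le rho_lt_one.le (by omega)
  have e8 : ((5 : ℤ) - 4).toNat = 1 := rfl
  rw [e8, pow_one] at h
  have h2 := mass_nonneg (Om (wPar 5 N)) n 5
  have h3 := mass_nonneg (Om (wPar 5 N)) n 3
  have hr := rho_pos
  have h4 : 0 ≤ rho ^ ((5 : ℤ) - 5).toNat * Mass (Om (wPar 5 N)) n 5 :=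
    mul_nonneg (pow_pos hr _).le h2
  have h5 : 0 ≤ rho ^ ((5 : ℤ) - 3).toNat * Mass (Om (wPar 5 N)) n 3 :=
    mul_nonneg (pow_pos hr _).le h3
  have h6 : rho ^ 7 * 1 ≤ rho ^ 7 * Fm 5 N n := mul_le_mul_of_nonneg_left hF (pow_pos hr 7).le
  have h7 : rho * (Mass (Om (wPar 5 N)) n 4 + rho ^ 6) ≤
      rho * Mass (Om (wPar 5 (8 * N))) n 4 := by
    have : rho * rho ^ 6 = rho ^ 7 := by ring
    nlinarith
  exact le_of_mul_le_mul_left h7 hr

/-- the weighted far mass of the wedge of 240 degrees -/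
noncomputable def Gm (N : ℤ) (n : ℕ) : ℝ :=
  ∑ k ∈ KF 4, Real.cos ((k : ℝ) * (Real.pi / 8) + Real.pi / 16) * Mass (Om (wPar 4 N)) n k

theorem gm_ident (N : ℤ) (hN : 1 ≤ N) (n : ℕ) (hn : 12 * N ^ 2 ≤ n) :
    Gm N n + Real.sin (Real.pi / 16) * Nm 4 N n = Real.cos (Real.pi / 16) := by
  have h := w_rot 4 N hN n hn (Real.pi / 16)
  have hnear : ∑ k ∈ KN 4, Real.cos ((k : ℝ) * (Real.pi / 8) + Real.pi / 16) *
      Mass (Om (wPar 4 N)) n k = Real.sin (Real.pi / 16) * Nm 4 N n := by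
    unfold Nm
    rw [kn4, Finset.sum_pair (by norm_num), Finset.sum_pair (by norm_num)]
    have c3 : Real.cos (((3 : ℤ) : ℝ) * (Real.pi / 8) + Real.pi / 16) =
        Real.sin (Real.pi / 16) := by
      have : ((3 : ℤ) : ℝ) * (Real.pi / 8) + Real.pi / 16 = Real.pi / 2 - Real.pi / 16 := by
        push_cast; ring
      rw [this, Real.cos_pi_div_two_sub]
    have c4 : Real.cos (((-4 : ℤ) : ℝ) * (Real.pi / 8) + Real.pi / 16) =
        Real.sin (Real.pi / 16) := by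
      have : ((-4 : ℤ) : ℝ) * (Real.pi / 8) + Real.pi / 16 = -(Real.pi / 2 - Real.pi / 16) := by
        push_cast; ring
      rw [this, Real.cos_neg, Real.cos_pi_div_two_sub]
    rw [c3, c4]
    ring
  rw [hnear] at h
  exact h

theorem sin16_pos : 0 < Real.sin (Real.pi / 16) := by
  apply Real.sin_pos_of_pos_of_lt_pi
  · have := Real.pi_pos; linarith
  · have := Real.pi_pos; linarith

theorem gm_le (N : ℤ) (n : ℕ) : Gm N n ≤ Fm 4 N n := by
  apply Finset.sum_le_sum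
  intro k _
  have := Real.cos_le_one ((k : ℝ) * (Real.pi / 8) + Real.pi / 16)
  have := mass_nonneg (Om (wPar 4 N)) n k
  nlinarith

theorem gm_ge (N : ℤ) (n : ℕ) : 83 / 100 * Fm 4 N n ≤ Gm N n := by
  unfold Fm Gm
  rw [Finset.mul_sum]
  apply Finset.sum_le_sum
  intro k hk
  apply mul_le_mul_of_nonneg_right _ (mass_nonneg _ _ _)
  rw [kf4, Finset.mem_Icc] at hk
  have h3 : (-2 : ℝ) ≤ k := by exact_mod_cast hk.1
  have h4 : (k : ℝ) ≤ 1 := by exact_mod_cast hk.2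
  have hpi := Real.pi_pos
  have h5 : Real.cos (3 * Real.pi / 16) ≤ Real.cos ((k : ℝ) * (Real.pi / 8) + Real.pi / 16) := by
    apply cos_mono
    · rw [abs_le]
      constructor <;> nlinarith
    · linarith
  refine le_trans ?_ h5
  have h6 : Real.cos (2 * (3 * Real.pi / 16)) = 2 * Real.cos (3 * Real.pi / 16) ^ 2 - 1 :=
    Real.cos_two_mul _
  have h7 : Real.cos (2 * (3 * Real.pi / 16)) = Real.sin (Real.pi / 8) := by
    have : 2 * (3 * Real.pi / 16) = Real.pi / 2 - Real.pi / 8 := by ring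
    rw [this, Real.cos_pi_div_two_sub]
  have h8 : 0 ≤ Real.cos (3 * Real.pi / 16) := by
    apply Real.cos_nonneg_of_neg_pi_div_two_le_of_le <;> linarith
  have h9 : 0.38 ≤ Real.sin (Real.pi / 8) := by
    have a := sin8_sq
    have b := sin8_pos
    have c := s2_lt
    have d : Real.sqrt 2 ≤ 1.4143 := by
      have := s2sq
      have := s2_pos
      nlinarith
    nlinarith
  nlinarith

theorem decay4 (N : ℤ) (hN : 4 ≤ N) (n : ℕ) (hn : 12 * (8 * N) ^ 2 ≤ n) :
    Gm (8 * N) n ≤ (1 - Real.sin (Real.pi / 16) * rho ^ 5) * Gm N n := by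
  have h := step4 N hN n hn
  have i1 := gm_ident N (by omega) n (by nlinarith)
  have i2 := gm_ident (8 * N) (by omega) n hn
  have e : Finset.Icc (-2 : ℤ) 5 = insert 5 (insert 4 (insert 3 (insert 2
      (Finset.Icc (-2 : ℤ) 1)))) := by
    ext k
    simp only [Finset.mem_insert, Finset.mem_Icc]
    omega
  rw [e, Finset.sum_insert (by simp), Finset.sum_insert (by simp),
    Finset.sum_insert (by simp), Finset.sum_insert (by simp)] at h
  have h1 : rho ^ 7 * Fm 4 N n ≤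
      ∑ k ∈ Finset.Icc (-2 : ℤ) 1, rho ^ (5 - k).toNat * Mass (Om (wPar 4 N)) n k := by
    unfold Fm
    rw [kf4, Finset.mul_sum]
    apply Finset.sum_le_sum
    intro k hk
    rw [Finset.mem_Icc] at hk
    apply mul_le_mul_of_nonneg_right _ (mass_nonneg _ _ _)
    exact pow_le_pow_of_le_one rho_pos.le rho_lt_one.le (by omega)
  have e8 : ((5 : ℤ) - 3).toNat = 2 := rfl
  rw [e8] at h
  have hr := rho_pos
  have h4 : 0 ≤ rho ^ ((5 : ℤ) - 5).toNat * Mass (Om (wPar 4 N)) n 5 :=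
    mul_nonneg (pow_pos hr _).le (mass_nonneg _ _ _)
  have h5 : 0 ≤ rho ^ ((5 : ℤ) - 4).toNat * Mass (Om (wPar 4 N)) n 4 :=
    mul_nonneg (pow_pos hr _).le (mass_nonneg _ _ _)
  have h6 : 0 ≤ rho ^ ((5 : ℤ) - 2).toNat * Mass (Om (wPar 4 N)) n 2 :=
    mul_nonneg (pow_pos hr _).le (mass_nonneg _ _ _)
  have h7 : rho ^ 2 * (Mass (Om (wPar 4 N)) n 3 + rho ^ 5 * Fm 4 N n) ≤
      rho ^ 2 * Mass (Om (wPar 4 (8 * N))) n 3 := by
    have : rho ^ 2 * rho ^ 5 = rho ^ 7 := by ring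
    nlinarith
  have h8 := le_of_mul_le_mul_left h7 (pow_pos hr 2)
  have h9 := side_mono 4 N (8 * N) (by omega) (by omega) (-4) (Or.inl rfl) n
  have h10 : Nm 4 N n + rho ^ 5 * Fm 4 N n ≤ Nm 4 (8 * N) n := by
    unfold Nm
    rw [kn4, Finset.sum_pair (by norm_num), Finset.sum_pair (by norm_num)]
    linarith
  have h11 := gm_le N n
  have hs := sin16_pos
  have h12 : rho ^ 5 * Gm N n ≤ rho ^ 5 * Fm 4 N n :=
    mul_le_mul_of_nonneg_left h11 (pow_pos hr 5).le
  have h13 := mul_le_mul_of_nonneg_left (h12.trans (by linarith : rho ^ 5 * Fm 4 N n ≤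
    Nm 4 (8 * N) n - Nm 4 N n)) hs.le
  linarith

theorem gm_anti (N M : ℤ) (hN : 1 ≤ N) (hNM : N ≤ M) (n : ℕ) (hn : 12 * M ^ 2 ≤ n) :
    Gm M n ≤ Gm N n := by
  have i1 := gm_ident N (by omega) n (by nlinarith)
  have i2 := gm_ident M (by omega) n hn
  have h9 := side_mono 4 N M hN hNM (-4) (Or.inl rfl) n
  have h8 := side_mono 4 N M hN hNM 3 (Or.inr (Or.inr (Or.inl ⟨rfl, rfl⟩))) n
  have h10 : Nm 4 N n ≤ Nm 4 M n := by
    unfold Nm
    rw [kn4, Finset.sum_pair (by norm_num), Finset.sum_pair (by norm_num)]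
    linarith
  have := mul_le_mul_of_nonneg_left h10 sin16_pos.le
  linarith

end H978R3.Wedge
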